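import Pool.Agent.H83.Tw5

set_option autoImplicit false

namespace Pool.Agent.Results.MP_d9033c_gt.CHNo

open Cardinal Pool.Agent.H85.TauDefs Pool.Agent.H83.TwDefs

/-- Under CH some set of reals has tau-subcovers of all omega-covers but is not a gamma-set. -/
theorem result (hCH : (𝔠 : Cardinal.{0}) = ℵ₁) :
    ∃ X : Set ℝ, Choose (Omega X) (Tau X) ∧ ¬ Choose (Omega X) (Gamma X) := by
  obtain ⟨X, hne, -, h2, -, h4, -⟩ := Pool.Agent.H83.Tw.main hCH
  exact ⟨X, Pool.Agent.H83.Tw.choose_of_split h2,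
    fun h => h4 fun C hC => h C (Pool.Agent.H85.Tau.tau_sub_omega hC)⟩

end Pool.Agent.Results.MP_d9033c_gt.CHNo
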